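import Pool.Agent.TH280.LS.StmB
set_option autoImplicit false

/-!
# Radially decreasing functions: geometry of the Euclidean length
-/

open MeasureTheory Set Filter
open scoped ENNReal Pointwise

namespace Pool.Agent.TH554.CLR
open Pool.Agent.TH280.LS

variable {m : ℕ}

theorem nr_nonneg (y : Fin m → ℝ) : 0 ≤ nr y := Real.sqrt_nonneg _

theorem continuous_nr : Continuous (nr : (Fin m → ℝ) → ℝ) := by
  unfold nr
  fun_prop

theorem measurable_nr : Measurable (nr : (Fin m → ℝ) → ℝ) := continuous_nr.measurable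

theorem nr_smul (k : ℝ) (y : Fin m → ℝ) : nr (k • y) = |k| * nr y := by
  unfold nr
  have h : ∑ i, (k • y) i ^ 2 = k ^ 2 * ∑ i, y i ^ 2 := by
    rw [Finset.mul_sum]
    refine Finset.sum_congr rfl fun i _ => ?_
    simp only [Pi.smul_apply, smul_eq_mul]
    ring
  rw [h, Real.sqrt_mul (sq_nonneg _), Real.sqrt_sq_eq_abs]

theorem nr_pos {y : Fin m → ℝ} (h : y ≠ 0) : 0 < nr y := by
  unfold nr
  apply Real.sqrt_pos.mpr
  obtain ⟨i, hi⟩ := Function.ne_iff.mp h
  have h1 : 0 < y i ^ 2 := by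
    have : y i ≠ 0 := hi
    positivity
  refine lt_of_lt_of_le h1 ?_
  exact Finset.single_le_sum (f := fun i => y i ^ 2) (fun j _ => sq_nonneg _) (Finset.mem_univ i)

/-- the identification with the Euclidean space -/
noncomputable def TT (m : ℕ) : EuclideanSpace ℝ (Fin m) ≃ᵐ (Fin m → ℝ) :=
  (MeasurableEquiv.toLp 2 (Fin m → ℝ)).symm

theorem mp_TT (m : ℕ) : MeasurePreserving (TT m) volume volume :=
  EuclideanSpace.volume_preserving_symm_measurableEquiv_toLp (Fin m)

theorem nr_TT (z : EuclideanSpace ℝ (Fin m)) : nr (TT m z) = ‖z‖ := by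
  rw [EuclideanSpace.norm_eq]
  unfold nr
  congr 1
  refine Finset.sum_congr rfl fun i _ => ?_
  rw [Real.norm_eq_abs, sq_abs]
  rfl

theorem nontriv (hm : 0 < m) : Nontrivial (EuclideanSpace ℝ (Fin m)) := by
  have : Nonempty (Fin m) := ⟨⟨0, hm⟩⟩
  infer_instance

theorem sphere_null (hm : 0 < m) (R : ℝ) : volume {y : Fin m → ℝ | nr y = R} = 0 := by
  have hs : MeasurableSet {y : Fin m → ℝ | nr y = R} :=
    measurableSet_eq_fun measurable_nr measurable_const
  rw [← (mp_TT m).measure_preimage hs.nullMeasurableSet]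
  have h1 : TT m ⁻¹' {y | nr y = R} = Metric.sphere 0 R := by
    ext z
    simp [nr_TT]
  rw [h1]
  have := nontriv hm
  exact Measure.addHaar_sphere _ _ _

theorem ball_meas (R : ℝ) : MeasurableSet {y : Fin m → ℝ | nr y < R} :=
  measurableSet_lt measurable_nr measurable_const

theorem cball_meas (R : ℝ) : MeasurableSet {y : Fin m → ℝ | nr y ≤ R} :=
  measurableSet_le measurable_nr measurable_const

theorem ball_fin (R : ℝ) : volume {y : Fin m → ℝ | nr y < R} < ⊤ := by
  rw [← (mp_TT m).measure_preimage (ball_meas R).nullMeasurableSet]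
  have h1 : TT m ⁻¹' {y | nr y < R} = Metric.ball 0 R := by
    ext z
    simp [nr_TT]
  rw [h1]
  exact measure_ball_lt_top

theorem ball_pos : 0 < volume {y : Fin m → ℝ | nr y < 1} := by
  refine IsOpen.measure_pos _ (isOpen_lt continuous_nr continuous_const) ⟨0, ?_⟩
  show nr (0 : Fin m → ℝ) < 1
  simp [nr]

theorem ball_vol (hm : 0 < m) (R : ℝ) (hR : 0 ≤ R) :
    volume {y : Fin m → ℝ | nr y < R} = ENNReal.ofReal (R ^ m) * volume {y : Fin m → ℝ | nr y < 1} := by
  rcases hR.eq_or_lt with rfl | hR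
  · have h1 : {y : Fin m → ℝ | nr y < 0} = ∅ := by
      ext y
      simp [nr_nonneg y]
    rw [h1, zero_pow hm.ne']
    simp
  · have h1 : {y : Fin m → ℝ | nr y < R} = R • {y : Fin m → ℝ | nr y < 1} := by
      ext y
      rw [Set.mem_smul_set_iff_inv_smul_mem₀ hR.ne']
      show nr y < R ↔ nr (R⁻¹ • y) < 1
      rw [nr_smul, abs_of_pos (inv_pos.mpr hR), inv_mul_lt_iff₀ hR, mul_one]
    rw [h1, Measure.addHaar_smul, Module.finrank_fin_fun, abs_of_pos (by positivity)]

/-- change of variables -/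
theorem lint_smul (φ : (Fin m → ℝ) → ℝ≥0∞) (hφ : Measurable φ) (k : ℝ) (hk : 0 < k) :
    ∫⁻ y, φ (k • y) = ENNReal.ofReal ((k ^ m)⁻¹) * ∫⁻ y, φ y := by
  have h1 := Measure.map_addHaar_smul (volume : Measure (Fin m → ℝ)) hk.ne'
  rw [Module.finrank_fin_fun, abs_of_pos (by positivity)] at h1
  rw [← lintegral_map hφ (measurable_const_smul k), h1, lintegral_smul_measure, smul_eq_mul]

/-- the radial integrals -/
noncomputable def JJ (m : ℕ) (s b : ℝ) : ℝ≥0∞ :=
  ∫⁻ y : Fin m → ℝ, ENNReal.ofReal (nr y ^ s * (1 + nr y) ^ (-b))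

theorem meas_rad (s b k : ℝ) :
    Measurable (fun y : Fin m → ℝ => ENNReal.ofReal (nr y ^ s * (1 + nr y * k) ^ (-b))) := by
  have := measurable_nr (m := m)
  fun_prop

theorem scale (s b k : ℝ) (hk : 0 < k) :
    ∫⁻ y : Fin m → ℝ, ENNReal.ofReal (nr y ^ s * (1 + nr y * k) ^ (-b)) =
      ENNReal.ofReal (k ^ (-s - m)) * JJ m s b := by
  have h0 := meas_rad (m := m) s b 1
  simp only [mul_one] at h0
  have h1 := lint_smul (fun y : Fin m → ℝ => ENNReal.ofReal (nr y ^ s * (1 + nr y) ^ (-b))) h0 k hk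
  have h2 : ∀ y : Fin m → ℝ, ENNReal.ofReal (nr y ^ s * (1 + nr y * k) ^ (-b)) =
      ENNReal.ofReal (k ^ (-s)) * ENNReal.ofReal (nr (k • y) ^ s * (1 + nr (k • y)) ^ (-b)) := by
    intro y
    rw [← ENNReal.ofReal_mul (by positivity)]
    congr 1
    rw [nr_smul, abs_of_pos hk, Real.mul_rpow hk.le (nr_nonneg y), Real.rpow_neg hk.le]
    have h3 : k ^ s ≠ 0 := (Real.rpow_pos_of_pos hk s).ne'
    rw [mul_comm k (nr y)]
    field_simp
  rw [lintegral_congr h2, lintegral_const_mul' _ _ ENNReal.ofReal_ne_top, h1,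
    ← mul_assoc, ← ENNReal.ofReal_mul (by positivity)]
  unfold JJ
  congr 2
  rw [sub_eq_add_neg, Real.rpow_add hk, Real.rpow_neg hk.le (m : ℝ), Real.rpow_natCast]

theorem JJ_fin (hm : 0 < m) (s b : ℝ) (hb : 0 ≤ b) (h1 : -(m : ℝ) < s) (h2 : s - b < -m) :
    JJ m s b < ⊤ := by
  have := nontriv hm
  have hmp := (mp_TT m).lintegral_comp_emb (TT m).measurableEmbedding
    (fun y : Fin m → ℝ => ENNReal.ofReal (nr y ^ s * (1 + nr y) ^ (-b)))
  unfold JJ
  rw [← hmp]
  simp only [nr_TT]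
  have hint : Integrable (fun z : EuclideanSpace ℝ (Fin m) =>
      (fun r : ℝ => r ^ s * (1 + r) ^ (-b)) ‖z‖) := by
    rw [integrable_fun_norm_addHaar volume (f := fun r : ℝ => r ^ s * (1 + r) ^ (-b))]
    rw [finrank_euclideanSpace_fin]
    have hmeas : Measurable (fun y : ℝ => y ^ (m - 1) • (y ^ s * (1 + y) ^ (-b))) := by
      simp only [smul_eq_mul]
      fun_prop
    have hu : Ioi (0 : ℝ) = Ioc 0 1 ∪ Ioi 1 := (Ioc_union_Ioi_eq_Ioi zero_le_one).symm
    rw [hu]
    apply IntegrableOn.union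
    · have hi : IntegrableOn (fun y : ℝ => y ^ ((m : ℝ) - 1 + s)) (Ioc 0 1) := by
        have h3 := intervalIntegral.intervalIntegrable_rpow' (a := 0) (b := 1)
          (r := (m : ℝ) - 1 + s) (by linarith)
        rwa [intervalIntegrable_iff_integrableOn_Ioc_of_le zero_le_one] at h3
      refine Integrable.mono' hi hmeas.aestronglyMeasurable ?_
      rw [ae_restrict_iff' measurableSet_Ioc]
      refine Filter.Eventually.of_forall fun y hy => ?_
      have hy0 : 0 < y := hy.1
      rw [smul_eq_mul, Real.norm_of_nonneg (by positivity)]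
      have h3 : (1 + y) ^ (-b) ≤ 1 := Real.rpow_le_one_of_one_le_of_nonpos (by linarith) (by linarith)
      have h4 : y ^ ((m : ℝ) - 1 + s) = y ^ (m - 1) * y ^ s := by
        rw [Real.rpow_add hy0, ← Real.rpow_natCast, Nat.cast_sub hm, Nat.cast_one]
      rw [h4]
      refine mul_le_mul_of_nonneg_left ?_ (by positivity)
      have : 0 ≤ y ^ s := by positivity
      nlinarith
    · have hi : IntegrableOn (fun y : ℝ => y ^ ((m : ℝ) - 1 + s - b)) (Ioi 1) :=
        integrableOn_Ioi_rpow_of_lt (by linarith) zero_lt_one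
      refine Integrable.mono' hi hmeas.aestronglyMeasurable ?_
      rw [ae_restrict_iff' measurableSet_Ioi]
      refine Filter.Eventually.of_forall fun y hy => ?_
      have hy1 : 1 < y := hy
      have hy0 : 0 < y := by linarith
      rw [smul_eq_mul, Real.norm_of_nonneg (by positivity)]
      have h3 : (1 + y) ^ (-b) ≤ y ^ (-b) :=
        Real.rpow_le_rpow_of_nonpos hy0 (by linarith) (by linarith)
      have h4 : y ^ ((m : ℝ) - 1 + s - b) = y ^ (m - 1) * (y ^ s * y ^ (-b)) := by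
        rw [sub_eq_add_neg, Real.rpow_add hy0, Real.rpow_add hy0, ← Real.rpow_natCast,
          Nat.cast_sub hm, Nat.cast_one, mul_assoc]
      rw [h4]
      refine mul_le_mul_of_nonneg_left ?_ (by positivity)
      exact mul_le_mul_of_nonneg_left h3 (by positivity)
  exact hint.lintegral_lt_top

end Pool.Agent.TH554.CLR
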