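import Pool.Agent.TH554.CLR.A
set_option autoImplicit false

/-!
# Radially decreasing functions: the weighted bound of the majorant
-/

open MeasureTheory Set Filter
open scoped ENNReal Pointwise

namespace Pool.Agent.TH554.CLR
open Pool.Agent.TH280.LS

variable {m : ℕ}

/-- the kernel -/
noncomputable def KK (m : ℕ) (y η : Fin m → ℝ) : ℝ≥0∞ :=
  ENNReal.ofReal ((1 + nr y * nr η) ^ (-(((m : ℝ) + 1) / 2)))

theorem ae_pos (hm : 0 < m) : ∀ᵐ y : Fin m → ℝ, 0 < nr y := by
  have h : ∀ᵐ y : Fin m → ℝ, nr y ≠ 0 := by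
    rw [ae_iff]
    simp only [not_not]
    exact sphere_null hm 0
  filter_upwards [h] with y hy
  exact lt_of_le_of_ne (nr_nonneg y) (Ne.symm hy)

theorem meas_KK : Measurable (fun z : (Fin m → ℝ) × (Fin m → ℝ) => KK m z.1 z.2) := by
  unfold KK
  have := measurable_nr (m := m)
  fun_prop

theorem meas_KK' : Measurable (fun z : (Fin m → ℝ) × (Fin m → ℝ) => KK m z.2 z.1) := by
  unfold KK
  have := measurable_nr (m := m)
  fun_prop

theorem meas_KK1 (η : Fin m → ℝ) : Measurable (fun y => KK m y η) := by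
  unfold KK
  have := measurable_nr (m := m)
  fun_prop

theorem holder_step {p q : ℝ} (hpq : p.HolderConjugate q) (W g h : (Fin m → ℝ) → ℝ≥0∞)
    (hW : Measurable W) (hg : Measurable g) (hh : Measurable h) :
    (∫⁻ y, g y * h y * W y) ^ p ≤ (∫⁻ y, g y ^ p * W y) * (∫⁻ y, h y ^ q * W y) ^ (p - 1) := by
  have h1 := ENNReal.lintegral_mul_le_Lp_mul_Lq (volume.withDensity W) hpq hg.aemeasurable
    hh.aemeasurable
  rw [lintegral_withDensity_eq_lintegral_mul _ hW (hg.mul hh),
    lintegral_withDensity_eq_lintegral_mul _ hW (hg.pow_const p),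
    lintegral_withDensity_eq_lintegral_mul _ hW (hh.pow_const q)] at h1
  have h2 := ENNReal.rpow_le_rpow h1 hpq.nonneg
  rw [ENNReal.mul_rpow_of_nonneg _ _ hpq.nonneg, ← ENNReal.rpow_mul, ← ENNReal.rpow_mul,
    one_div_mul_cancel hpq.ne_zero, ENNReal.rpow_one] at h2
  have h3 : 1 / q * p = p - 1 := by
    have h4 := hpq.sub_one_mul_conj
    have h5 := hpq.symm.ne_zero
    field_simp
    linarith
  rw [h3] at h2
  have e1 : ∫⁻ y, g y * h y * W y = ∫⁻ y, (W * (g * h)) y :=
    lintegral_congr fun y => by simp only [Pi.mul_apply]; ring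
  have e2 : ∫⁻ y, g y ^ p * W y = ∫⁻ y, (W * fun y => g y ^ p) y :=
    lintegral_congr fun y => by simp only [Pi.mul_apply]; ring
  have e3 : ∫⁻ y, h y ^ q * W y = ∫⁻ y, (W * fun y => h y ^ q) y :=
    lintegral_congr fun y => by simp only [Pi.mul_apply]; ring
  rw [e1, e2, e3]
  exact h2

theorem schur (hm : 2 ≤ m) (p : ℝ) (hp : 2 ≤ p) (hp' : p < 2 * m / (m - 1)) :
    ∃ C : ℝ≥0∞, C < ⊤ ∧ ∀ f : (Fin m → ℝ) → ℝ≥0∞, Measurable f →
      ∫⁻ η : Fin m → ℝ, ENNReal.ofReal ((nr η ^ m) ^ (p - 2)) *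
        (∫⁻ y : Fin m → ℝ, f y * KK m y η) ^ p ≤ C * ∫⁻ y : Fin m → ℝ, f y ^ p := by
  have hm0 : 0 < m := by omega
  have hmR : (2 : ℝ) ≤ m := by exact_mod_cast hm
  have hp1 : 1 < p := by linarith
  have hp0 : 0 < p := by linarith
  set q : ℝ := Real.conjExponent p with hq
  have hpq : p.HolderConjugate q := Real.HolderConjugate.conjExponent hp1
  have hqe : q = p / (p - 1) := rfl
  have hpm : p * (m - 1) < 2 * m := by
    rwa [lt_div_iff₀ (by linarith)] at hp'
  obtain ⟨a, ha1, ha2⟩ : ∃ a, ((m : ℝ) - 1) * (p - 1) / (2 * p) < a ∧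
      a < min ((m : ℝ) * (p - 1) / p) (((m : ℝ) + 1) / (2 * p)) := by
    apply exists_between
    apply lt_min
    · rw [div_lt_div_iff₀ (by positivity) hp0]
      have h1 : 0 < p - 1 := by linarith
      have h2 : 0 < (m : ℝ) + 1 := by linarith
      nlinarith [mul_pos (mul_pos h1 h2) hp0]
    · rw [div_lt_div_iff_of_pos_right (by positivity)]
      nlinarith
  have ha3 := lt_of_lt_of_le ha2 (min_le_left _ _)
  have ha4 := lt_of_lt_of_le ha2 (min_le_right _ _)
  have hp1' : 0 < p - 1 := by linarith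
  rw [div_lt_iff₀ (by positivity)] at ha1
  rw [lt_div_iff₀ hp0] at ha3
  rw [lt_div_iff₀ (by positivity)] at ha4
  have ha0 : 0 < a := by
    by_contra hcon
    have h1 : 0 < ((m : ℝ) - 1) * (p - 1) := mul_pos (by linarith) hp1'
    have h2 : a * (2 * p) ≤ 0 := mul_nonpos_of_nonpos_of_nonneg (not_lt.mp hcon) (by positivity)
    linarith
  have haq : a * q * (p - 1) = a * p := by
    rw [hqe]
    field_simp
  -- the two constants
  have hI1 : JJ m (-(a * q)) (((m : ℝ) + 1) / 2) < ⊤ := by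
    apply JJ_fin hm0 _ _ (by positivity)
    · have h1 : a * q < m := by
        have h2 : a * q * (p - 1) < m * (p - 1) := by rw [haq]; exact ha3
        exact lt_of_mul_lt_mul_right h2 hp1'.le
      linarith
    · have h1 : ((m : ℝ) - 1) / 2 < a * q := by
        have h2 : ((m : ℝ) - 1) / 2 * (p - 1) < a * q * (p - 1) := by
          rw [haq]; linarith
        exact lt_of_mul_lt_mul_right h2 hp1'.le
      linarith
  have hI2 : JJ m (a * p - m) (((m : ℝ) + 1) / 2) < ⊤ := by
    apply JJ_fin hm0 _ _ (by positivity)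
    · have : 0 < a * p := by positivity
      linarith
    · linarith
  refine ⟨JJ m (-(a * q)) (((m : ℝ) + 1) / 2) ^ (p - 1) * JJ m (a * p - m) (((m : ℝ) + 1) / 2),
    ENNReal.mul_lt_top (ENNReal.rpow_lt_top_of_nonneg hp1'.le hI1.ne) hI2, fun f hf => ?_⟩
  set I1 := JJ m (-(a * q)) (((m : ℝ) + 1) / 2) with hI1e
  set I2 := JJ m (a * p - m) (((m : ℝ) + 1) / 2) with hI2e
  have hmn := measurable_nr (m := m)
  have hma : Measurable (fun y : Fin m → ℝ => ENNReal.ofReal (nr y ^ a)) := by fun_prop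
  have hma' : Measurable (fun y : Fin m → ℝ => ENNReal.ofReal (nr y ^ (-a))) := by fun_prop
  -- pointwise bound
  have hpt : ∀ η : Fin m → ℝ, 0 < nr η → ENNReal.ofReal ((nr η ^ m) ^ (p - 2)) *
      (∫⁻ y : Fin m → ℝ, f y * KK m y η) ^ p ≤ I1 ^ (p - 1) *
      ∫⁻ y : Fin m → ℝ, (f y * ENNReal.ofReal (nr y ^ a)) ^ p *
        (ENNReal.ofReal (nr η ^ (a * p - m)) * KK m y η) := by
    intro η hη
    have h1 := holder_step hpq (fun y => KK m y η) (fun y => f y * ENNReal.ofReal (nr y ^ a))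
      (fun y => ENNReal.ofReal (nr y ^ (-a))) (meas_KK1 η) (hf.mul hma) hma'
    have h2 : ∫⁻ y : Fin m → ℝ, f y * KK m y η =
        ∫⁻ y, f y * ENNReal.ofReal (nr y ^ a) * ENNReal.ofReal (nr y ^ (-a)) * KK m y η := by
      refine lintegral_congr_ae ?_
      filter_upwards [ae_pos hm0] with y hy
      have h3 : ENNReal.ofReal (nr y ^ a) * ENNReal.ofReal (nr y ^ (-a)) = 1 := by
        rw [← ENNReal.ofReal_mul (by positivity), ← Real.rpow_add hy]
        simp
      rw [mul_assoc (f y), h3, mul_one]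
    rw [← h2] at h1
    have h4 : ∫⁻ y : Fin m → ℝ, ENNReal.ofReal (nr y ^ (-a)) ^ q * KK m y η =
        ENNReal.ofReal (nr η ^ (a * q - m)) * I1 := by
      have h5 := scale (m := m) (-(a * q)) (((m : ℝ) + 1) / 2) (nr η) hη
      rw [neg_neg] at h5
      rw [hI1e, ← h5]
      refine lintegral_congr_ae ?_
      filter_upwards [ae_pos hm0] with y hy
      unfold KK
      rw [ENNReal.ofReal_rpow_of_pos (by positivity), ← Real.rpow_mul hy.le, neg_mul,
        ← ENNReal.ofReal_mul (by positivity)]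
    rw [h4, ENNReal.mul_rpow_of_nonneg _ _ hp1'.le, ENNReal.ofReal_rpow_of_pos (by positivity),
      ← Real.rpow_mul hη.le] at h1
    refine (mul_le_mul_right h1 _).trans (le_of_eq ?_)
    have h6 : ∫⁻ y : Fin m → ℝ, (f y * ENNReal.ofReal (nr y ^ a)) ^ p *
        (ENNReal.ofReal (nr η ^ (a * p - m)) * KK m y η) =
        ENNReal.ofReal (nr η ^ (a * p - m)) *
          ∫⁻ y : Fin m → ℝ, (f y * ENNReal.ofReal (nr y ^ a)) ^ p * KK m y η := by
      rw [← lintegral_const_mul' _ _ ENNReal.ofReal_ne_top]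
      exact lintegral_congr fun y => by ring
    rw [h6]
    have h7 : ENNReal.ofReal ((nr η ^ m) ^ (p - 2)) *
        ENNReal.ofReal (nr η ^ ((a * q - m) * (p - 1))) = ENNReal.ofReal (nr η ^ (a * p - m)) := by
      rw [← ENNReal.ofReal_mul (by positivity)]
      congr 1
      rw [← Real.rpow_natCast, ← Real.rpow_mul hη.le, ← Real.rpow_add hη]
      congr 1
      rw [sub_mul (a * q), haq]
      ring
    rw [← h7]
    ring
  -- integrate
  have hjm : Measurable (fun z : (Fin m → ℝ) × (Fin m → ℝ) =>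
      (f z.2 * ENNReal.ofReal (nr z.2 ^ a)) ^ p *
        (ENNReal.ofReal (nr z.1 ^ (a * p - m)) * KK m z.2 z.1)) := by
    have h1 := meas_KK' (m := m)
    have h2 : Measurable (fun z : (Fin m → ℝ) × (Fin m → ℝ) => f z.2 * ENNReal.ofReal (nr z.2 ^ a)) :=
      (hf.mul hma).comp measurable_snd
    have h3 : Measurable (fun z : (Fin m → ℝ) × (Fin m → ℝ) =>
        ENNReal.ofReal (nr z.1 ^ (a * p - m))) := by fun_prop
    have h4 : Measurable (fun z : (Fin m → ℝ) × (Fin m → ℝ) =>
        (f z.2 * ENNReal.ofReal (nr z.2 ^ a)) ^ p) := Measurable.pow_const h2 p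
    have h5 : Measurable (fun z : (Fin m → ℝ) × (Fin m → ℝ) =>
        ENNReal.ofReal (nr z.1 ^ (a * p - m)) * KK m z.2 z.1) := Measurable.mul h3 h1
    exact Measurable.mul h4 h5
  calc ∫⁻ η : Fin m → ℝ, ENNReal.ofReal ((nr η ^ m) ^ (p - 2)) *
        (∫⁻ y : Fin m → ℝ, f y * KK m y η) ^ p
      ≤ ∫⁻ η : Fin m → ℝ, I1 ^ (p - 1) *
        ∫⁻ y : Fin m → ℝ, (f y * ENNReal.ofReal (nr y ^ a)) ^ p *
        (ENNReal.ofReal (nr η ^ (a * p - m)) * KK m y η) := by
        apply lintegral_mono_ae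
        filter_upwards [ae_pos hm0] with η hη
        exact hpt η hη
    _ = I1 ^ (p - 1) * ∫⁻ η : Fin m → ℝ, 
        ∫⁻ y : Fin m → ℝ, (f y * ENNReal.ofReal (nr y ^ a)) ^ p *
        (ENNReal.ofReal (nr η ^ (a * p - m)) * KK m y η) := by
        rw [lintegral_const_mul' _ _ (ENNReal.rpow_lt_top_of_nonneg hp1'.le hI1.ne).ne]
    _ = I1 ^ (p - 1) * ∫⁻ y : Fin m → ℝ, 
        ∫⁻ η : Fin m → ℝ, (f y * ENNReal.ofReal (nr y ^ a)) ^ p *
        (ENNReal.ofReal (nr η ^ (a * p - m)) * KK m y η) := by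
        rw [lintegral_lintegral_swap hjm.aemeasurable]
    _ = I1 ^ (p - 1) * ∫⁻ y : Fin m → ℝ, I2 * f y ^ p := by
        congr 1
        refine lintegral_congr_ae ?_
        filter_upwards [ae_pos hm0] with y hy
        have h1 : Measurable (fun η : Fin m → ℝ =>
            ENNReal.ofReal (nr η ^ (a * p - m)) * KK m y η) := by
          unfold KK
          fun_prop
        rw [lintegral_const_mul _ h1]
        have h5 := scale (m := m) (a * p - m) (((m : ℝ) + 1) / 2) (nr y) hy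
        have h6 : ∫⁻ η : Fin m → ℝ, ENNReal.ofReal (nr η ^ (a * p - m)) * KK m y η =
            ENNReal.ofReal (nr y ^ (-(a * p))) * I2 := by
          rw [hI2e]
          have h7 : -(a * p - (m : ℝ)) - m = -(a * p) := by ring
          rw [h7] at h5
          rw [← h5]
          refine lintegral_congr fun η => ?_
          unfold KK
          rw [← ENNReal.ofReal_mul (Real.rpow_nonneg (nr_nonneg η) _), mul_comm (nr y)]
        rw [h6, ENNReal.mul_rpow_of_nonneg _ _ hp0.le, ENNReal.ofReal_rpow_of_pos (by positivity),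
          ← Real.rpow_mul hy.le]
        have h8 : ENNReal.ofReal (nr y ^ (a * p)) * ENNReal.ofReal (nr y ^ (-(a * p))) = 1 := by
          rw [← ENNReal.ofReal_mul (by positivity), ← Real.rpow_add hy]
          simp
        calc f y ^ p * ENNReal.ofReal (nr y ^ (a * p)) *
            (ENNReal.ofReal (nr y ^ (-(a * p))) * I2) =
            f y ^ p * (ENNReal.ofReal (nr y ^ (a * p)) * ENNReal.ofReal (nr y ^ (-(a * p)))) * I2 := by
              ring
          _ = I2 * f y ^ p := by rw [h8]; ring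
    _ = I1 ^ (p - 1) * I2 * ∫⁻ y : Fin m → ℝ, f y ^ p := by
        rw [lintegral_const_mul' _ _ hI2.ne, mul_assoc]

end Pool.Agent.TH554.CLR
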