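import Pool.Agent.TH554.CLR.B
set_option autoImplicit false

/-!
# Radially decreasing functions: the layers
-/

open MeasureTheory Set Filter
open scoped ENNReal Pointwise

namespace Pool.Agent.TH554.CLR
open Pool.Agent.TH280.LS

variable {m : ℕ}

theorem vol_univ (hm : 0 < m) : volume (univ : Set (Fin m → ℝ)) = ⊤ := by
  have : Nonempty (Fin m) := ⟨⟨0, hm⟩⟩
  have : NoncompactSpace (Fin m → ℝ) := NormedSpace.noncompactSpace ℝ (Fin m → ℝ)
  exact measure_univ_of_isAddLeftInvariant volume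

theorem no_lower (hm : 0 < m) (f : (Fin m → ℝ) → ℝ) (hf : Integrable f) (r0 δ : ℝ) (hδ : 0 < δ)
    (h : ∀ y, r0 ≤ nr y → δ ≤ ‖f y‖) : False := by
  have h1 := hf.measure_norm_ge_lt_top hδ
  have h2 : (univ : Set (Fin m → ℝ)) ⊆ {y | nr y < r0} ∪ {y | δ ≤ ‖f y‖} := by
    intro y _
    rcases lt_or_ge (nr y) r0 with h3 | h3
    · exact Or.inl h3
    · exact Or.inr (h y h3)
  have h3 : volume (univ : Set (Fin m → ℝ)) < ⊤ :=
    lt_of_le_of_lt (measure_mono h2) (lt_of_le_of_lt (measure_union_le _ _)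
      (ENNReal.add_lt_top.mpr ⟨ball_fin r0, h1⟩))
  rw [vol_univ hm] at h3
  exact lt_irrefl _ h3

/-- the constant of the layer estimate -/
noncomputable def KC (m : ℕ) (CB : ℝ) : ℝ≥0∞ :=
  ENNReal.ofReal CB * (volume {y : Fin m → ℝ | nr y < 1})⁻¹

theorem KC_fin (CB : ℝ) : KC m CB < ⊤ := by
  unfold KC
  refine ENNReal.mul_lt_top ENNReal.ofReal_lt_top ?_
  rw [ENNReal.inv_lt_top]
  exact ball_pos

theorem level (hm : 0 < m) (CB : ℝ) (hCB : 0 < CB)
    (hball : ∀ (R : ℝ) (η : Fin m → ℝ), 0 ≤ R →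
      ‖ftm m ({y : Fin m → ℝ | nr y ≤ R}.indicator 1) η‖ ≤
        CB * R ^ m * (1 + R * nr η) ^ (-(((m : ℝ) + 1) / 2)))
    (g : ℝ → ℝ) (hg : Antitone g) (hint : Integrable (fun y : Fin m → ℝ => g (nr y)))
    (lam : ℝ) (hlam : 0 < lam) (η : Fin m → ℝ) :
    ‖ftm m ({y : Fin m → ℝ | lam < g (nr y)}.indicator 1) η‖ₑ ≤
      KC m CB * ∫⁻ y in {y : Fin m → ℝ | lam < g (nr y)}, KK m y η := by
  set A : Set ℝ := {r | 0 ≤ r ∧ lam < g r} with hA
  have hbdd : BddAbove A := by
    by_contra hcon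
    apply no_lower hm _ hint 0 lam hlam
    intro y _
    rw [not_bddAbove_iff] at hcon
    obtain ⟨r, hr, hr'⟩ := hcon (nr y)
    have h1 : lam < g (nr y) := lt_of_lt_of_le hr.2 (hg hr'.le)
    exact h1.le.trans (le_abs_self _)
  set R : ℝ := sSup A with hR
  have hR0 : 0 ≤ R := Real.sSup_nonneg fun r hr => hr.1
  have hsub1 : ∀ y : Fin m → ℝ, lam < g (nr y) → nr y ≤ R := fun y hy =>
    le_csSup hbdd ⟨nr_nonneg y, hy⟩
  have hsub2 : ∀ y : Fin m → ℝ, nr y < R → lam < g (nr y) := by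
    intro y hy
    have hne : A.Nonempty := by
      by_contra hcon
      rw [Set.not_nonempty_iff_eq_empty] at hcon
      rw [hR, hcon, Real.sSup_empty] at hy
      exact absurd hy (not_lt.mpr (nr_nonneg y))
    obtain ⟨r, hr, hr'⟩ := exists_lt_of_lt_csSup hne hy
    exact lt_of_lt_of_le hr.2 (hg hr'.le)
  have hft : ftm m ({y : Fin m → ℝ | lam < g (nr y)}.indicator 1) η =
      ftm m ({y : Fin m → ℝ | nr y ≤ R}.indicator 1) η := by
    unfold ftm
    refine integral_congr_ae ?_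
    have h1 : ∀ᵐ y : Fin m → ℝ, nr y ≠ R := by
      rw [ae_iff]
      simp only [not_not]
      exact sphere_null hm R
    filter_upwards [h1] with y hy
    congr 1
    by_cases h2 : lam < g (nr y)
    · rw [Set.indicator_of_mem (show y ∈ {y : Fin m → ℝ | lam < g (nr y)} from h2),
        Set.indicator_of_mem (show y ∈ {y : Fin m → ℝ | nr y ≤ R} from hsub1 y h2)]
    · have h3 : ¬ nr y ≤ R := by
        intro h4
        exact h2 (hsub2 y (lt_of_le_of_ne h4 hy))
      rw [Set.indicator_of_notMem (show y ∉ {y : Fin m → ℝ | lam < g (nr y)} from h2),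
        Set.indicator_of_notMem (show y ∉ {y : Fin m → ℝ | nr y ≤ R} from h3)]
  rw [hft, ← ofReal_norm]
  have hc0 : volume {y : Fin m → ℝ | nr y < 1} ≠ 0 := ball_pos.ne'
  have hc1 : volume {y : Fin m → ℝ | nr y < 1} ≠ ⊤ := (ball_fin 1).ne
  have hRm : ENNReal.ofReal (R ^ m) =
      (volume {y : Fin m → ℝ | nr y < 1})⁻¹ * volume {y : Fin m → ℝ | nr y < R} := by
    rw [ball_vol hm R hR0, mul_comm (ENNReal.ofReal (R ^ m)), ← mul_assoc,
      ENNReal.inv_mul_cancel hc0 hc1, one_mul]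
  have hk := nr_nonneg η
  calc ENNReal.ofReal ‖ftm m ({y : Fin m → ℝ | nr y ≤ R}.indicator 1) η‖
      ≤ ENNReal.ofReal (CB * R ^ m * (1 + R * nr η) ^ (-(((m : ℝ) + 1) / 2))) :=
        ENNReal.ofReal_le_ofReal (hball R η hR0)
    _ = KC m CB * (ENNReal.ofReal ((1 + R * nr η) ^ (-(((m : ℝ) + 1) / 2))) *
        volume {y : Fin m → ℝ | nr y < R}) := by
        rw [ENNReal.ofReal_mul (by positivity), ENNReal.ofReal_mul (by positivity), hRm]
        unfold KC
        ring
    _ = KC m CB * ∫⁻ _ in {y : Fin m → ℝ | nr y < R},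
        ENNReal.ofReal ((1 + R * nr η) ^ (-(((m : ℝ) + 1) / 2))) := by
        rw [setLIntegral_const]
    _ ≤ KC m CB * ∫⁻ y in {y : Fin m → ℝ | nr y < R}, KK m y η := by
        refine mul_le_mul' le_rfl ?_
        refine setLIntegral_mono' (ball_meas R) fun y hy => ?_
        unfold KK
        apply ENNReal.ofReal_le_ofReal
        have h1 : nr y < R := hy
        have h2 := nr_nonneg y
        refine Real.rpow_le_rpow_of_nonpos (by positivity) ?_ (by
          have : (0 : ℝ) ≤ m := Nat.cast_nonneg m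
          linarith)
        have := mul_le_mul_of_nonneg_right h1.le hk
        linarith
    _ ≤ KC m CB * ∫⁻ y in {y : Fin m → ℝ | lam < g (nr y)}, KK m y η := by
        refine mul_le_mul' le_rfl ?_
        exact lintegral_mono_set fun y hy => hsub2 y hy

/-- the region below the graph -/
def Om (g : ℝ → ℝ) : Set ((Fin m → ℝ) × ℝ) := {z | z.2 ∈ Ioo 0 (g (nr z.1))}

theorem Om_eq (g : ℝ → ℝ) : (Om g : Set ((Fin m → ℝ) × ℝ)) =
    regionBetween (fun _ => 0) (fun y => g (nr y)) univ := by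
  ext z
  simp [Om, regionBetween]

theorem layer (hm : 0 < m) (CB : ℝ) (hCB : 0 < CB)
    (hball : ∀ (R : ℝ) (η : Fin m → ℝ), 0 ≤ R →
      ‖ftm m ({y : Fin m → ℝ | nr y ≤ R}.indicator 1) η‖ ≤
        CB * R ^ m * (1 + R * nr η) ^ (-(((m : ℝ) + 1) / 2)))
    (g : ℝ → ℝ) (hg : Antitone g) (hint : Integrable (fun y : Fin m → ℝ => g (nr y)))
    (hg0 : ∀ r, 0 ≤ r → 0 ≤ g r) (η : Fin m → ℝ) :
    ‖ftm m (fun y => ((g (nr y) : ℝ) : ℂ)) η‖ₑ ≤
      KC m CB * ∫⁻ y : Fin m → ℝ, ENNReal.ofReal (g (nr y)) * KK m y η := by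
  have hgm : Measurable (fun y : Fin m → ℝ => g (nr y)) := hg.measurable.comp measurable_nr
  have hOm : MeasurableSet (Om g : Set ((Fin m → ℝ) × ℝ)) := by
    rw [Om_eq]
    exact measurableSet_regionBetween measurable_const hgm MeasurableSet.univ
  have hOv : (volume.prod volume) (Om g : Set ((Fin m → ℝ) × ℝ)) < ⊤ := by
    rw [Om_eq, volume_regionBetween_eq_lintegral' measurable_const hgm MeasurableSet.univ,
      Measure.restrict_univ]
    have h1 := hint.lintegral_lt_top
    refine lt_of_le_of_lt (lintegral_mono fun y => ?_) h1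
    simp
  have he : Measurable (fun z : (Fin m → ℝ) × ℝ => e (-(∑ i, z.1 i * η i))) := by
    refine measurable_e.comp ?_
    fun_prop
  have hI : Integrable (fun z : (Fin m → ℝ) × ℝ =>
      e (-(∑ i, z.1 i * η i)) * (Om g).indicator (fun _ => (1 : ℂ)) z) (volume.prod volume) := by
    have h1 : Integrable ((Om g : Set ((Fin m → ℝ) × ℝ)).indicator (fun _ => (1 : ℂ)))
        (volume.prod volume) := by
      rw [integrable_indicator_iff hOm]
      exact integrableOn_const hOv.ne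
    exact h1.bdd_mul (c := 1) he.aestronglyMeasurable
      (Filter.Eventually.of_forall fun z => by rw [norm_e])
  have hin : ∀ y : Fin m → ℝ, ((g (nr y) : ℝ) : ℂ) =
      ∫ lam : ℝ, (Om g).indicator (fun _ => (1 : ℂ)) (y, lam) := by
    intro y
    have h1 : (fun lam : ℝ => (Om g).indicator (fun _ => (1 : ℂ)) (y, lam)) =
        (Ioo 0 (g (nr y))).indicator (fun _ => (1 : ℂ)) := by
      funext lam
      by_cases h2 : lam ∈ Ioo 0 (g (nr y))
      · rw [Set.indicator_of_mem h2, Set.indicator_of_mem (show (y, lam) ∈ Om g from h2)]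
      · rw [Set.indicator_of_notMem h2, Set.indicator_of_notMem (show (y, lam) ∉ Om g from h2)]
    rw [h1, integral_indicator_const _ measurableSet_Ioo, Measure.real, Real.volume_Ioo, sub_zero,
      ENNReal.toReal_ofReal (hg0 _ (nr_nonneg y))]
    simp
  have hft : ftm m (fun y => ((g (nr y) : ℝ) : ℂ)) η =
      ∫ lam : ℝ, ∫ y : Fin m → ℝ,
        e (-(∑ i, y i * η i)) * (Om g).indicator (fun _ => (1 : ℂ)) (y, lam) := by
    rw [← integral_integral_swap (f := fun (y : Fin m → ℝ) (lam : ℝ) =>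
      e (-(∑ i, y i * η i)) * (Om g).indicator (fun _ => (1 : ℂ)) (y, lam)) hI]
    unfold ftm
    refine integral_congr_ae (Filter.Eventually.of_forall fun y => ?_)
    show e (-(∑ i, y i * η i)) * ((g (nr y) : ℝ) : ℂ) = _
    rw [hin y, ← integral_const_mul]
  have hlev : ∀ lam : ℝ, ‖∫ y : Fin m → ℝ,
      e (-(∑ i, y i * η i)) * (Om g).indicator (fun _ => (1 : ℂ)) (y, lam)‖ₑ ≤
      KC m CB * ∫⁻ y : Fin m → ℝ, (Om g).indicator (fun _ => (1 : ℝ≥0∞)) (y, lam) * KK m y η := by
    intro lam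
    rcases le_or_gt lam 0 with hl | hl
    · have h1 : (fun y : Fin m → ℝ => e (-(∑ i, y i * η i)) *
          (Om g).indicator (fun _ => (1 : ℂ)) (y, lam)) = fun _ => 0 := by
        funext y
        rw [Set.indicator_of_notMem, mul_zero]
        intro h2
        exact absurd h2.1 (not_lt.mpr hl)
      rw [h1]
      simp
    · have h1 := level hm CB hCB hball g hg hint lam hl η
      have hS : MeasurableSet {y : Fin m → ℝ | lam < g (nr y)} := measurableSet_lt measurable_const hgm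
      have h2 : (∫ y : Fin m → ℝ, e (-(∑ i, y i * η i)) *
          (Om g).indicator (fun _ => (1 : ℂ)) (y, lam)) =
          ftm m ({y : Fin m → ℝ | lam < g (nr y)}.indicator 1) η := by
        unfold ftm
        refine integral_congr_ae (Filter.Eventually.of_forall fun y => ?_)
        show e (-(∑ i, y i * η i)) * (Om g).indicator (fun _ => (1 : ℂ)) (y, lam) =
          e (-(∑ i, y i * η i)) * ({y : Fin m → ℝ | lam < g (nr y)}.indicator 1) y
        congr 1
        by_cases h3 : lam < g (nr y)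
        · rw [Set.indicator_of_mem (show (y, lam) ∈ Om g from ⟨hl, h3⟩),
            Set.indicator_of_mem (show y ∈ {y : Fin m → ℝ | lam < g (nr y)} from h3)]
          rfl
        · rw [Set.indicator_of_notMem (show (y, lam) ∉ Om g from fun h4 => h3 h4.2),
            Set.indicator_of_notMem (show y ∉ {y : Fin m → ℝ | lam < g (nr y)} from h3)]
      rw [h2]
      refine h1.trans (le_of_eq ?_)
      congr 1
      rw [← lintegral_indicator hS]
      refine lintegral_congr fun y => ?_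
      by_cases h3 : lam < g (nr y)
      · rw [Set.indicator_of_mem (show y ∈ {y : Fin m → ℝ | lam < g (nr y)} from h3),
          Set.indicator_of_mem (show (y, lam) ∈ Om g from ⟨hl, h3⟩), one_mul]
      · rw [Set.indicator_of_notMem (show y ∉ {y : Fin m → ℝ | lam < g (nr y)} from h3),
          Set.indicator_of_notMem (show (y, lam) ∉ Om g from fun h4 => h3 h4.2), zero_mul]
  have hmi : Measurable (fun z : (Fin m → ℝ) × ℝ =>
      (Om g).indicator (fun _ => (1 : ℝ≥0∞)) z) := measurable_const.indicator hOm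
  have hmj : Measurable (fun z : ℝ × (Fin m → ℝ) =>
      (Om g).indicator (fun _ => (1 : ℝ≥0∞)) (z.2, z.1) * KK m z.2 η) := by
    have h1 : Measurable (fun z : ℝ × (Fin m → ℝ) =>
        (Om g).indicator (fun _ => (1 : ℝ≥0∞)) (z.2, z.1)) := Measurable.comp hmi measurable_swap
    have h2 : Measurable ((fun y : Fin m → ℝ => KK m y η) ∘
        (Prod.snd : ℝ × (Fin m → ℝ) → (Fin m → ℝ))) := Measurable.comp (meas_KK1 η) measurable_snd
    exact Measurable.mul h1 h2
  calc ‖ftm m (fun y => ((g (nr y) : ℝ) : ℂ)) η‖ₑ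
      = ‖∫ lam : ℝ, ∫ y : Fin m → ℝ,
        e (-(∑ i, y i * η i)) * (Om g).indicator (fun _ => (1 : ℂ)) (y, lam)‖ₑ := by rw [hft]
    _ ≤ ∫⁻ lam : ℝ, ‖∫ y : Fin m → ℝ,
        e (-(∑ i, y i * η i)) * (Om g).indicator (fun _ => (1 : ℂ)) (y, lam)‖ₑ :=
        enorm_integral_le_lintegral_enorm _
    _ ≤ ∫⁻ lam : ℝ, KC m CB *
        ∫⁻ y : Fin m → ℝ, (Om g).indicator (fun _ => (1 : ℝ≥0∞)) (y, lam) * KK m y η :=
        lintegral_mono hlev
    _ = KC m CB * ∫⁻ lam : ℝ,
        ∫⁻ y : Fin m → ℝ, (Om g).indicator (fun _ => (1 : ℝ≥0∞)) (y, lam) * KK m y η :=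
        lintegral_const_mul' _ _ (KC_fin CB).ne
    _ = KC m CB * ∫⁻ y : Fin m → ℝ,
        ∫⁻ lam : ℝ, (Om g).indicator (fun _ => (1 : ℝ≥0∞)) (y, lam) * KK m y η := by
        rw [lintegral_lintegral_swap (f := fun (lam : ℝ) (y : Fin m → ℝ) =>
          (Om g).indicator (fun _ => (1 : ℝ≥0∞)) (y, lam) * KK m y η) hmj.aemeasurable]
    _ = KC m CB * ∫⁻ y : Fin m → ℝ, ENNReal.ofReal (g (nr y)) * KK m y η := by
        congr 1
        refine lintegral_congr fun y => ?_
        rw [lintegral_mul_const' _ _ (by unfold KK; exact ENNReal.ofReal_ne_top)]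
        congr 1
        have h1 : (fun lam : ℝ => (Om g).indicator (fun _ => (1 : ℝ≥0∞)) (y, lam)) =
            (Ioo 0 (g (nr y))).indicator (fun _ => (1 : ℝ≥0∞)) := by
          funext lam
          by_cases h2 : lam ∈ Ioo 0 (g (nr y))
          · rw [Set.indicator_of_mem h2, Set.indicator_of_mem (show (y, lam) ∈ Om g from h2)]
          · rw [Set.indicator_of_notMem h2, Set.indicator_of_notMem (show (y, lam) ∉ Om g from h2)]
        rw [h1, lintegral_indicator_const measurableSet_Ioo, Real.volume_Ioo, sub_zero, one_mul]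

end Pool.Agent.TH554.CLR
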